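import Pool.Agent.Y199.DM.Ret
import Pool.Agent.Y199.ZF.Rat

/-!
# MP_295d38_ag: the dynamical Mordell-Lang conjecture for almost all rational members of families
with preperiodic members

**Families.** Let `F_{t,0}, …, F_{t,N}` be forms of degree `d` in `N + 1` variables, let `x(t)` be a
point with coordinates `x_0(t), …, x_N(t)`, and let `V_t ⊂ ℙ^N` be the closed set defined by forms
`G_{t,k}`, `k ∈ κ` (`κ` finite), all coefficients being complex polynomials in `t`. So `F_t` is a
one-parameter family of rational self-maps of `ℙ^N`. It can be a family of endomorphisms of `ℙ^N`, a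
family of polynomial self-maps of the affine space (`F_{t,0} = X_0^d`), hence of an
affine variety, or be constant. For `t ∈ ℂ` let `R_t` be the set of the `n` such that the
`n`-th iterate of `x(t)` is a point of `V_t`.

**Theorem.** Let `α_1, …, α_M` be algebraic numbers, of arbitrary degrees, such that for all `l` the
orbit of `x(α_l)` under `F_{α_l}` is defined (no iterate is zero) and finite (in `ℙ^N`). Suppose that

* the intersection of the sets `R_{α_1}, …, R_{α_M}` is finite, or
* for some `l` the matrix of the partial derivatives of the `F_{α_l, i}` is invertible at the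
  iterates of `x(α_l)` from some index on (that is, `F_{α_l}` is étale at the points of the cycle).

Then there are constants `C` and `s` such that for all `B ≥ 2` and `v ≤ B`: all but at most
`C (log B)^s` of the rational numbers `t` with denominator `v` and with numerator at most `B` in
absolute value have the following properties: the orbit of `x(t)` under `F_t` is defined, `R_t` is
a finite union of arithmetic progressions, and `R_t ⊆ R_{α_l}` for all `l`.

So the dynamical Mordell-Lang conjecture holds for these `F_t`, `x(t)`, `V_t`, in a uniform way.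
For `v = 1` these are the integers `t` with `|t| ≤ B`.
For example (`M = 1`) let `F` be any endomorphism of `ℙ^N` over `ℂ`, let `P` be any preperiodic point
of `F` and let `V` be any closed set which does not meet the cycle of `P`. Then for every rational
curve `x(t)` with `x(α) = P` for some algebraic number `α`, in particular for all lines through `P`,
suitably parametrized, and for all but `C (log B)^s` of the integers `t`, `|t| ≤ B`, the set of the
`n` with `F^n (x(t)) ∈ V` is finite and contained in the set of the `n` with `F^n(P) ∈ V`; so it is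
empty if `V` does not meet the orbit of `P`. No condition on the ramification of `F` is needed.
If several `x(α_l)` are preperiodic and no `n` is in all the `R_{α_l}` then the orbits of
`x(t)` do not meet `V_t`, even if all the cycles meet the `V_{α_l}`.

The sister result `FamiliesWithPreperiodicMembers` supposes that `x(α)` is preperiodic for
`L + 2 δ` rational numbers `α` and either étale or with `R_α` finite for all of them, and has
finitely many exceptions of degree at most `δ`, for which `R_t ⊆ R_α` for `L` of the `α`.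

The proof: if the value at `t` of the minimal polynomial of `α_l` is divisible by a large prime `p`
then there is an embedding of `ℂ` into the algebraic closure of `ℚ_p` for which all data have good
reduction and `α_l` is near to `t`; so the orbits of `x(t)` and of `x(α_l)` have the same reduction.
The other `t` are few.
-/

set_option autoImplicit false

open Polynomial Pool.Agent.H936R2 Pool.Agent.Y199.DM Pool.Agent.Y199.ZF Pool.Agent.Y152.BD

namespace Pool.Agent.Results.MP_295d38_ag.AlgebraicPreperiodicMembers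

variable {N : ℕ} {κ : Type}

/-- The member at `t` of a family of systems of polynomials. -/
noncomputable def member {ι : Type} (F : ι → MvPolynomial (Fin (N + 1)) ℂ[X]) (t : ℂ) :
    ι → MvPolynomial (Fin (N + 1)) ℂ :=
  fun i => MvPolynomial.map (evalRingHom t) (F i)

/-- The starting point at `t`. -/
noncomputable def start (x : Fin (N + 1) → ℂ[X]) (t : ℂ) : Fin (N + 1) → ℂ :=
  fun i => (x i).eval t

/-- The set `R_t`. -/
def returns (F : Fin (N + 1) → MvPolynomial (Fin (N + 1)) ℂ[X]) (x : Fin (N + 1) → ℂ[X])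
    (G : κ → MvPolynomial (Fin (N + 1)) ℂ[X]) (t : ℂ) : Set ℕ :=
  returnSet (member F t) (start x t) (member G t)

theorem coeff_member {ι : Type} (F : ι → MvPolynomial (Fin (N + 1)) ℂ[X]) (t : ℂ)
    (i : ι) (κ : Fin (N + 1) →₀ ℕ) :
    (member F t i).coeff κ = ((F i).coeff κ).eval t := by
  rw [member, MvPolynomial.coeff_map]
  rfl

/-- The coefficients of a family. -/
theorem exists_coeff {ι : Type} [Finite ι] (F : ι → MvPolynomial (Fin (N + 1)) ℂ[X]) :
    ∃ s : Finset ℂ, ∀ (p : ℕ) [Fact p.Prime] (τ : ℂ →+* PadicAlgCl p), (∀ y ∈ s, ‖τ y‖ ≤ 1) →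
      ∀ i κ k, ‖τ (((F i).coeff κ).coeff k)‖ ≤ 1 := by
  classical
  have : Fintype ι := Fintype.ofFinite ι
  refine ⟨Finset.univ.biUnion fun i => (F i).support.biUnion fun κ =>
    ((F i).coeff κ).support.image fun k => ((F i).coeff κ).coeff k, fun p hp τ hτ i κ k => ?_⟩
  by_cases h : ((F i).coeff κ).coeff k = 0
  · rw [h, map_zero, norm_zero]
    exact zero_le_one
  · have h1 : (F i).coeff κ ≠ 0 := fun h0 => h (by rw [h0, coeff_zero])
    refine hτ _ ?_
    simp only [Finset.mem_biUnion, Finset.mem_image, Finset.mem_univ, true_and]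
    exact ⟨i, κ, MvPolynomial.mem_support_iff.2 h1, k, mem_support_iff.2 h, rfl⟩

/-- The criterion for one parameter. -/
theorem near [Finite κ] (F : Fin (N + 1) → MvPolynomial (Fin (N + 1)) ℂ[X]) {d : ℕ}
    (hF : ∀ i, (F i).IsHomogeneous d) (x : Fin (N + 1) → ℂ[X])
    (G : κ → MvPolynomial (Fin (N + 1)) ℂ[X]) (e : κ → ℕ) (hG : ∀ k, (G k).IsHomogeneous (e k))
    (α : ℂ) (hα : Preperiodic (member F α) (start x α)) :
    ∃ s : Finset ℂ, ∀ (p : ℕ) [Fact p.Prime] (τ : ℂ →+* PadicAlgCl p), (∀ y ∈ s, ‖τ y‖ ≤ 1) →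
      ∀ t : ℂ, ‖τ α - τ t‖ < 1 → (∀ n, (pt (member F t))^[n] (start x t) ≠ 0) ∧
        returns F x G t ⊆ returns F x G α ∧
        (EventuallyEtale (member F α) (start x α) → IsFiniteUnionOfAP (returns F x G t)) := by
  classical
  obtain ⟨s, -, hs⟩ := exists_units_ret (member F α) (fun i => (hF i).map _) _ hα (member G α) e
    (fun k => (hG k).map _)
  obtain ⟨s1, hs1⟩ := exists_coeff F
  obtain ⟨s2, hs2⟩ := exists_coeff G
  obtain ⟨s3, hs3⟩ := exists_coeff (N := 0) fun i => MvPolynomial.C (x i)
  obtain ⟨s4, hs4⟩ : ∃ s : Finset ℂ, (EventuallyEtale (member F α) (start x α) →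
      ∃ n₀ : ℕ, ∀ (p : ℕ) [Fact p.Prime]
        (τ : ℂ →+* PadicAlgCl p), (∀ y ∈ s, ‖τ y‖ ≤ 1) →
        ∀ n, n₀ ≤ n → ‖τ ((jac (member F α) ((pt (member F α))^[n] (start x α))).det)‖ = 1) := by
    by_cases het : EventuallyEtale (member F α) (start x α)
    · obtain ⟨s, n₀, -, h2⟩ := exists_units (member F α) (fun i => (hF i).map _) _
        (etalePreperiodic (fun i => (hF i).map _) hα het)
      exact ⟨s, fun _ => ⟨n₀, fun p hp τ hτ => (h2 p τ hτ).1⟩⟩
    · exact ⟨∅, fun h => absurd h het⟩
  refine ⟨s ∪ s1 ∪ s2 ∪ s3 ∪ s4 ∪ {α}, fun p hp τ hτ t ht => ?_⟩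
  have hτ1 := hs1 p τ fun y hy => hτ y (by simp [hy])
  have hτ2 := hs2 p τ fun y hy => hτ y (by simp [hy])
  have hτ3 : ∀ i k, ‖τ ((x i).coeff k)‖ ≤ 1 := by
    intro i k
    have h1 := hs3 p τ (fun y hy => hτ y (by simp [hy])) i 0 k
    rwa [MvPolynomial.coeff_C, if_pos rfl] at h1
  have hαn : ‖τ (α : ℂ)‖ ≤ 1 := hτ α (by simp)
  have htα : ‖τ t - τ (α : ℂ)‖ < 1 := by
    rw [norm_sub_rev]
    exact ht
  have htn : ‖τ t‖ ≤ 1 := by
    have h1 : τ t = (τ t - τ (α : ℂ)) + τ (α : ℂ) := by ring
    rw [h1]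
    exact (IsUltrametricDist.norm_add_le_max _ _).trans (max_le htα.le hαn)
  have hev := fun (q : ℂ[X]) (hq : ∀ k, ‖τ (q.coeff k)‖ ≤ 1) =>
    eval_near τ q hq t (α : ℂ) htn hαn htα
  have hevα := fun (q : ℂ[X]) (hq : ∀ k, ‖τ (q.coeff k)‖ ≤ 1) =>
    (eval_near τ q hq (α : ℂ) (α : ℂ) hαn hαn (by rw [sub_self, norm_zero]; exact one_pos)).1
  obtain ⟨hne, hret⟩ := hs p τ fun y hy => hτ y (by simp [hy])
  have hFt : ∀ i κ, ‖τ ((member F t i).coeff κ)‖ ≤ 1 := fun i κ => by
    rw [coeff_member]
    exact (hev _ (hτ1 i κ)).1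
  have hFα : ∀ i κ, ‖τ ((member F α i).coeff κ)‖ ≤ 1 := fun i κ => by
    rw [coeff_member]
    exact hevα _ (hτ1 i κ)
  have hFtα : ∀ i κ, ‖τ ((member F t i).coeff κ) - τ ((member F α i).coeff κ)‖ < 1 :=
    fun i κ => by
      rw [coeff_member, coeff_member]
      exact (hev _ (hτ1 i κ)).2
  have hit := iterates_near τ (member F t) (member F α) (start x t) (start x α) hFt hFα hFtα
    (fun i => (hev _ (hτ3 i)).1) (fun i => hevα _ (hτ3 i)) (fun i => (hev _ (hτ3 i)).2)
  refine ⟨fun n h0 => ?_, fun n hn => ?_, fun het => ?_⟩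
  · obtain ⟨i, hi⟩ := hne n
    have h1 := (hit n i).2.2
    rw [h0, Pi.zero_apply, map_zero, zero_sub, norm_neg, hi] at h1
    exact lt_irrefl _ h1
  · by_contra hnot
    obtain ⟨k, hk⟩ := hret n hnot
    have h1 := mv_near τ (member G t k) (member G α k) _ _
      (fun κ => by rw [coeff_member]; exact (hev _ (hτ2 k κ)).1)
      (fun κ => by rw [coeff_member]; exact hevα _ (hτ2 k κ))
      (fun κ => by rw [coeff_member, coeff_member]; exact (hev _ (hτ2 k κ)).2)
      (fun i => (hit n i).1) (fun i => (hit n i).2.1) (fun i => (hit n i).2.2)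
    have h2 : MvPolynomial.eval ((pt (member F t))^[n] (start x t)) (member G t k) = 0 := hn k
    have h3 := h1.2.2
    rw [h2, map_zero, zero_sub, norm_neg, hk] at h3
    exact lt_irrefl _ h3
  · obtain ⟨n₀, hdet⟩ := hs4 het
    have h1 := orbit_core τ (member F t) (member F α) (start x t) (start x α) hFt hFα hFtα
      (fun i => (hev _ (hτ3 i)).1) (fun i => hevα _ (hτ3 i)) (fun i => (hev _ (hτ3 i)).2) n₀
      (hdet p τ fun y hy => hτ y (by simp [hy])) hne
    obtain ⟨T, hT⟩ := h1.2 (Set.range (member G t))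
    refine ⟨T, ?_⟩
    rw [← hT]
    ext n
    simp only [returns, returnSet, Set.mem_ofPred_eq, Set.forall_mem_range]

/-- **The dynamical Mordell-Lang conjecture for almost all rational members of families with
preperiodic members.** -/
theorem result [Finite κ] {d M : ℕ} (F : Fin (N + 1) → MvPolynomial (Fin (N + 1)) ℂ[X])
    (hF : ∀ i, (F i).IsHomogeneous d) (x : Fin (N + 1) → ℂ[X])
    (G : κ → MvPolynomial (Fin (N + 1)) ℂ[X]) (e : κ → ℕ) (hG : ∀ k, (G k).IsHomogeneous (e k))
    (α : Fin M → ℂ) (hα : ∀ l, IsAlgebraic ℚ (α l))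
    (hpre : ∀ l, Preperiodic (member F (α l)) (start x (α l)))
    (hR : {n : ℕ | ∀ l, n ∈ returns F x G (α l)}.Finite ∨
      ∃ l, EventuallyEtale (member F (α l)) (start x (α l))) :
    ∃ C s : ℕ, ∀ B v : ℕ, 2 ≤ B → v ≤ B → ∀ T : Finset ℚ,
      (∀ t ∈ T, t.den = v ∧ |t.num| ≤ B ∧
        ¬ ((∀ n, (pt (member F t))^[n] (start x t) ≠ 0) ∧ IsFiniteUnionOfAP (returns F x G t) ∧
          ∀ l, returns F x G t ⊆ returns F x G (α l))) →
      (T.card : ℝ) ≤ C * Real.log B ^ s := by
  classical
  choose s hs using fun l => near F hF x G e hG (α l) (hpre l)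
  have hM : Nonempty (Fin M) := by
    rcases hR with h | ⟨l, -⟩
    · by_contra hM
      rw [not_nonempty_iff] at hM
      have : {n : ℕ | ∀ l, n ∈ returns F x G (α l)} = Set.univ := by
        ext n
        simp
      rw [this] at h
      exact Set.infinite_univ h
    · exact ⟨l⟩
  have hfew : Few fun t => ∃ l : Fin M, ¬ ∃ (p : ℕ) (_ : Fact p.Prime) (τ : ℂ →+* PadicAlgCl p),
      (∀ x ∈ s l, ‖τ x‖ ≤ 1) ∧ ‖τ ((t : ℚ) : ℂ)‖ ≤ 1 ∧ ‖τ (α l) - τ ((t : ℚ) : ℂ)‖ < 1 :=
    Few.exists fun l => few_far (s l) (α l) (hα l)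
  refine hfew.mono fun t ht => ?_
  by_contra hcon
  have hcon' := not_exists.1 hcon
  have key : ∀ l, (∀ n, (pt (member F t))^[n] (start x t) ≠ 0) ∧
        returns F x G t ⊆ returns F x G (α l) ∧
        (EventuallyEtale (member F (α l)) (start x (α l)) →
          IsFiniteUnionOfAP (returns F x G t)) := by
    intro l
    obtain ⟨p, hp, τ, hτ, -, hτα⟩ := not_not.1 (hcon' l)
    exact hs l p τ hτ t hτα
  refine ht ⟨(key hM.some).1, ?_, fun l => (key l).2.1⟩
  rcases hR with hfin | ⟨l, het⟩
  · exact isFiniteUnionOfAP_of_finite (hfin.subset fun n hn l => (key l).2.1 hn)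
  · exact (key l).2.2 het

end Pool.Agent.Results.MP_295d38_ag.AlgebraicPreperiodicMembers
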