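import Pool.Agent.Y199.DM.Emb
import Pool.Agent.Y199.DM.Ret

/-!
# MP_295d38_ag: the dynamical Mordell-Lang conjecture for families with preperiodic members

**Families.** Let `F_{t,0}, …, F_{t,N}` be forms of degree `d` in `N + 1` variables, let `x(t)` be a
point with coordinates `x_0(t), …, x_N(t)`, and let `V_t ⊂ ℙ^N` be the closed set defined by forms
`G_{t,k}`, `k ∈ κ` (`κ` finite), all coefficients being polynomials in `t`. So `F_t` is a
one-parameter family of rational self-maps of `ℙ^N`. It can be a family of endomorphisms of `ℙ^N`, a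
family of polynomial self-maps of the affine space (`F_{t,0} = X_0^d`), hence of an
affine variety, or be constant. For `t ∈ ℂ` let `R_t` be the set of the `n` such that the
`n`-th iterate of `x(t)` is a point of `V_t`.

**Theorem.** Let `A` be a finite set of rational numbers such that for all `α ∈ A` the orbit of `x(α)`
under `F_α` is defined (no iterate is zero) and finite (in `ℙ^N`), and such that

* the cycle of the orbit does not meet `V_α` (that is, `R_α` is finite), or
* the matrix of the partial derivatives of the `F_{α,i}` is invertible at the iterates of `x(α)` from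
  some index on (that is, `F_α` is étale at the points of the cycle).

1. Let `A` be not empty and let `K ⊂ ℂ` be a field which contains the coefficients of all
   polynomials. Then for all `t ∈ ℂ` which are transcendental over `K` the orbit of `x(t)` is defined,
   `R_t` is a finite union of arithmetic progressions, and `R_t ⊆ R_α` for all `α ∈ A`.
2. If `A` has at least `L + 2 δ` elements, `L ≥ 1`, then for all but finitely many algebraic numbers
   `t` of degree at most `δ` the orbit of `x(t)` is defined, `R_t` is a finite union of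
   arithmetic progressions, and `R_t ⊆ R_α` for at least `L` of the `α ∈ A`.

So the dynamical Mordell-Lang conjecture holds for these `F_t`, `x(t)`, `V_t`, in a uniform way: the
finitely many sets `R_α` contain all the sets `R_t`. For example if the cycles do not meet the
`V_α`, then the `R_t` are finite and `n < max n₀(α)` for all `n ∈ R_t`, and no condition on the
ramification of the maps is needed; if moreover no `n` is in `L` of the `R_α` then the orbit of
`x(t)` does not meet `V_t`.

The proof: if `t` is `p`-adically near to `α ∈ A` for an embedding of `ℂ` into the algebraic closure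
of `ℚ_p`, for which all data have good reduction, then the orbits of `x(t)` and `x(α)` have the same
reduction. By the `S`-unit equation (for the values of the minimal polynomial of `t` at the
elements of `A`, files of `Y152`) such embeddings exist for all but finitely many `t` of degree at
most `δ`.
-/

set_option autoImplicit false

open Polynomial Pool.Agent.H936R2 Pool.Agent.Y199.DM Pool.Agent.Y152.BD

namespace Pool.Agent.Results.MP_295d38_ag.FamiliesWithPreperiodicMembers

variable {N : ℕ} {κ : Type}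

/-- The member at `t` of a family of systems of polynomials. -/
noncomputable def member {ι : Type} (F : ι → MvPolynomial (Fin (N + 1)) ℂ[X]) (t : ℂ) :
    ι → MvPolynomial (Fin (N + 1)) ℂ :=
  fun i => MvPolynomial.map (evalRingHom t) (F i)

/-- The starting point at `t`. -/
noncomputable def start (x : Fin (N + 1) → ℂ[X]) (t : ℂ) : Fin (N + 1) → ℂ :=
  fun i => (x i).eval t

/-- The set `R_t`. -/
def returns (F : Fin (N + 1) → MvPolynomial (Fin (N + 1)) ℂ[X]) (x : Fin (N + 1) → ℂ[X])
    (G : κ → MvPolynomial (Fin (N + 1)) ℂ[X]) (t : ℂ) : Set ℕ :=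
  returnSet (member F t) (start x t) (member G t)

/-- The orbit of `x(t)` is defined, and `R_t` is a finite union of arithmetic progressions. -/
def DMLAt (F : Fin (N + 1) → MvPolynomial (Fin (N + 1)) ℂ[X]) (x : Fin (N + 1) → ℂ[X])
    (G : κ → MvPolynomial (Fin (N + 1)) ℂ[X]) (t : ℂ) : Prop :=
  (∀ n, (pt (member F t))^[n] (start x t) ≠ 0) ∧ IsFiniteUnionOfAP (returns F x G t)

/-- `t` is algebraic of degree at most `δ`. -/
def DegreeAtMost (δ : ℕ) (t : ℂ) : Prop := ∃ P : ℤ[X], P ≠ 0 ∧ P.natDegree ≤ δ ∧ aeval t P = 0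

/-- The coefficients of the polynomials are in `K`. -/
def CoeffIn {ι : Type} (K : Subfield ℂ) (F : ι → MvPolynomial (Fin (N + 1)) ℂ[X]) : Prop :=
  ∀ i κ k, ((F i).coeff κ).coeff k ∈ K

theorem coeff_member {ι : Type} (F : ι → MvPolynomial (Fin (N + 1)) ℂ[X]) (t : ℂ)
    (i : ι) (κ : Fin (N + 1) →₀ ℕ) :
    (member F t i).coeff κ = ((F i).coeff κ).eval t := by
  rw [member, MvPolynomial.coeff_map]
  rfl

/-- The coefficients of a family. -/
theorem exists_coeff {ι : Type} [Finite ι] (F : ι → MvPolynomial (Fin (N + 1)) ℂ[X]) :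
    ∃ s : Finset ℂ, (∀ K : Subfield ℂ, CoeffIn K F → (s : Set ℂ) ⊆ K) ∧
      ∀ i κ k, ((F i).coeff κ).coeff k ≠ 0 → ((F i).coeff κ).coeff k ∈ s := by
  classical
  have : Fintype ι := Fintype.ofFinite ι
  let s1 : Finset ℂ := Finset.univ.biUnion fun i => (F i).support.biUnion fun κ =>
    ((F i).coeff κ).support.image fun k => ((F i).coeff κ).coeff k
  refine ⟨s1, fun K hK y hy => ?_, fun i κ k h => ?_⟩
  · simp only [s1, Finset.mem_coe, Finset.mem_biUnion, Finset.mem_image, Finset.mem_univ,
      true_and] at hy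
    obtain ⟨i, κ, -, k, -, rfl⟩ := hy
    exact hK i κ k
  · have h1 : (F i).coeff κ ≠ 0 := fun h0 => h (by rw [h0, coeff_zero])
    simp only [s1, Finset.mem_biUnion, Finset.mem_image, Finset.mem_univ, true_and]
    exact ⟨i, κ, MvPolynomial.mem_support_iff.2 h1, k, mem_support_iff.2 h, rfl⟩

/-- The criterion for one parameter. -/
theorem near [Finite κ] (F : Fin (N + 1) → MvPolynomial (Fin (N + 1)) ℂ[X]) {d : ℕ}
    (hF : ∀ i, (F i).IsHomogeneous d) (x : Fin (N + 1) → ℂ[X])
    (G : κ → MvPolynomial (Fin (N + 1)) ℂ[X]) (e : κ → ℕ) (hG : ∀ k, (G k).IsHomogeneous (e k))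
    (α : ℚ) (hα : Preperiodic (member F α) (start x α))
    (hα' : (returns F x G α).Finite ∨ EventuallyEtale (member F α) (start x α)) :
    ∃ s : Finset ℂ, (∀ K : Subfield ℂ, CoeffIn K F → CoeffIn K G →
      (∀ i k, (x i).coeff k ∈ K) → (s : Set ℂ) ⊆ K) ∧
      ∀ (p : ℕ) [Fact p.Prime] (τ : ℂ →+* PadicAlgCl p), ¬ p ∣ α.den → (∀ y ∈ s, ‖τ y‖ ≤ 1) →
        ∀ t : ℂ, ‖τ t - α‖ < 1 → DMLAt F x G t ∧ returns F x G t ⊆ returns F x G α := by
  classical
  obtain ⟨s, hsK, hs⟩ := exists_units_ret (member F α) (fun i => (hF i).map _) _ hα (member G α) e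
    (fun k => (hG k).map _)
  obtain ⟨s1, hs1K, hs1⟩ := exists_coeff F
  obtain ⟨s2, hs2K, hs2⟩ := exists_coeff G
  obtain ⟨s3, hs3K, hs3⟩ := exists_coeff (N := 0) fun i => MvPolynomial.C (x i)
  obtain ⟨s4, hs4K, hs4⟩ : ∃ s : Finset ℂ, (EventuallyEtale (member F α) (start x α) →
      ∀ K : Subfield ℂ, (∀ i κ, (member F α i).coeff κ ∈ K) → (∀ i, start x α i ∈ K) →
        (s : Set ℂ) ⊆ K) ∧ (¬ EventuallyEtale (member F α) (start x α) → s = ∅) ∧
      (EventuallyEtale (member F α) (start x α) → ∃ n₀ : ℕ, ∀ (p : ℕ) [Fact p.Prime]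
        (τ : ℂ →+* PadicAlgCl p), (∀ y ∈ s, ‖τ y‖ ≤ 1) →
        ∀ n, n₀ ≤ n → ‖τ ((jac (member F α) ((pt (member F α))^[n] (start x α))).det)‖ = 1) := by
    by_cases het : EventuallyEtale (member F α) (start x α)
    · obtain ⟨s, n₀, h1, h2⟩ := exists_units (member F α) (fun i => (hF i).map _) _
        (etalePreperiodic (fun i => (hF i).map _) hα het)
      exact ⟨s, fun _ => h1, fun h => absurd het h, fun _ => ⟨n₀, fun p hp τ hτ => (h2 p τ hτ).1⟩⟩
    · exact ⟨∅, fun h => absurd h het, fun _ => rfl, fun h => absurd h het⟩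
  obtain ⟨hs4e, hs4u⟩ := hs4
  refine ⟨s ∪ s1 ∪ s2 ∪ s3 ∪ s4, fun K hFK hGK hxK y hy => ?_, fun p hp τ hden hτ t ht => ?_⟩
  · have hαK : (α : ℂ) ∈ K := SubfieldClass.ratCast_mem K α
    have hevK : ∀ q : ℂ[X], (∀ k, q.coeff k ∈ K) → q.eval (α : ℂ) ∈ K := by
      intro q hq
      rw [eval_eq_sum_range]
      exact K.sum_mem fun k _ => K.mul_mem (hq k) (K.pow_mem hαK k)
    have hFα : ∀ i κ, (member F α i).coeff κ ∈ K := fun i κ => by
      rw [coeff_member]
      exact hevK _ (hFK i κ)
    have hGα : ∀ i κ, (member G α i).coeff κ ∈ K := fun i κ => by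
      rw [coeff_member]
      exact hevK _ (hGK i κ)
    have hxα : ∀ i, start x α i ∈ K := fun i => hevK _ (hxK i)
    simp only [Finset.coe_union, Set.mem_union, Finset.mem_coe] at hy
    rcases hy with (((h | h) | h) | h) | h
    · exact hsK K hFα hxα hGα h
    · exact hs1K K hFK h
    · exact hs2K K hGK h
    · refine hs3K K (fun i κ k => ?_) h
      rw [MvPolynomial.coeff_C]
      split_ifs
      · exact hxK i k
      · rw [coeff_zero]
        exact K.zero_mem
    · by_cases het : EventuallyEtale (member F α) (start x α)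
      · exact hs4K het K hFα hxα h
      · rw [hs4e het] at h
        simp at h
  · have hτ0 : ∀ y ∈ s, ‖τ y‖ ≤ 1 := fun y hy => hτ y (by simp [hy])
    have hτ4 : ∀ y ∈ s4, ‖τ y‖ ≤ 1 := fun y hy => hτ y (by simp [hy])
    have hτ1 : ∀ i κ k, ‖τ (((F i).coeff κ).coeff k)‖ ≤ 1 := by
      intro i κ k
      by_cases h : ((F i).coeff κ).coeff k = 0
      · rw [h, map_zero, norm_zero]
        exact zero_le_one
      · exact hτ _ (by simp [hs1 i κ k h])
    have hτ2 : ∀ i κ k, ‖τ (((G i).coeff κ).coeff k)‖ ≤ 1 := by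
      intro i κ k
      by_cases h : ((G i).coeff κ).coeff k = 0
      · rw [h, map_zero, norm_zero]
        exact zero_le_one
      · exact hτ _ (by simp [hs2 i κ k h])
    have hτ3 : ∀ i k, ‖τ ((x i).coeff k)‖ ≤ 1 := by
      intro i k
      by_cases h : (x i).coeff k = 0
      · rw [h, map_zero, norm_zero]
        exact zero_le_one
      · have h1 := hs3 i 0 k (by rwa [MvPolynomial.coeff_C, if_pos rfl])
        rw [MvPolynomial.coeff_C, if_pos rfl] at h1
        exact hτ _ (by simp [h1])
    have hαn : ‖τ (α : ℂ)‖ ≤ 1 := by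
      rw [map_ratCast]
      have := Pool.Agent.TH838.PR.norm_rat_le_one (p := p) α hden
      rwa [eq_ratCast] at this
    have htα : ‖τ t - τ (α : ℂ)‖ < 1 := by
      rw [map_ratCast]
      exact ht
    have htn : ‖τ t‖ ≤ 1 := by
      have h1 : τ t = (τ t - τ (α : ℂ)) + τ (α : ℂ) := by ring
      rw [h1]
      exact (IsUltrametricDist.norm_add_le_max _ _).trans (max_le htα.le hαn)
    have hev := fun (q : ℂ[X]) (hq : ∀ k, ‖τ (q.coeff k)‖ ≤ 1) =>
      eval_near τ q hq t (α : ℂ) htn hαn htα
    have hevα := fun (q : ℂ[X]) (hq : ∀ k, ‖τ (q.coeff k)‖ ≤ 1) =>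
      (eval_near τ q hq (α : ℂ) (α : ℂ) hαn hαn (by rw [sub_self, norm_zero]; exact one_pos)).1
    obtain ⟨hne, hret⟩ := hs p τ hτ0
    have hFt : ∀ i κ, ‖τ ((member F t i).coeff κ)‖ ≤ 1 := fun i κ => by
      rw [coeff_member]
      exact (hev _ (hτ1 i κ)).1
    have hFα : ∀ i κ, ‖τ ((member F α i).coeff κ)‖ ≤ 1 := fun i κ => by
      rw [coeff_member]
      exact hevα _ (hτ1 i κ)
    have hFtα : ∀ i κ, ‖τ ((member F t i).coeff κ) - τ ((member F α i).coeff κ)‖ < 1 :=
      fun i κ => by
        rw [coeff_member, coeff_member]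
        exact (hev _ (hτ1 i κ)).2
    have hit := iterates_near τ (member F t) (member F α) (start x t) (start x α) hFt hFα hFtα
      (fun i => (hev _ (hτ3 i)).1) (fun i => hevα _ (hτ3 i)) (fun i => (hev _ (hτ3 i)).2)
    have hsub : returns F x G t ⊆ returns F x G α := by
      intro n hn
      by_contra hnot
      obtain ⟨k, hk⟩ := hret n hnot
      have h1 := mv_near τ (member G t k) (member G α k) _ _
        (fun κ => by rw [coeff_member]; exact (hev _ (hτ2 k κ)).1)
        (fun κ => by rw [coeff_member]; exact hevα _ (hτ2 k κ))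
        (fun κ => by rw [coeff_member, coeff_member]; exact (hev _ (hτ2 k κ)).2)
        (fun i => (hit n i).1) (fun i => (hit n i).2.1) (fun i => (hit n i).2.2)
      have h2 : MvPolynomial.eval ((pt (member F t))^[n] (start x t)) (member G t k) = 0 := hn k
      have h3 := h1.2.2
      rw [h2, map_zero, zero_sub, norm_neg, hk] at h3
      exact lt_irrefl _ h3
    refine ⟨⟨fun n h0 => ?_, ?_⟩, hsub⟩
    · obtain ⟨i, hi⟩ := hne n
      have h1 := (hit n i).2.2
      rw [h0, Pi.zero_apply, map_zero, zero_sub, norm_neg, hi] at h1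
      exact lt_irrefl _ h1
    · rcases hα' with hfin | het
      · exact isFiniteUnionOfAP_of_finite (hfin.subset hsub)
      · obtain ⟨n₀, hdet⟩ := hs4u het
        have h1 := orbit_core τ (member F t) (member F α) (start x t) (start x α) hFt hFα hFtα
          (fun i => (hev _ (hτ3 i)).1) (fun i => hevα _ (hτ3 i)) (fun i => (hev _ (hτ3 i)).2) n₀
          (hdet p τ hτ4) hne
        obtain ⟨T, hT⟩ := h1.2 (Set.range (member G t))
        refine ⟨T, ?_⟩
        rw [← hT]
        ext n
        simp only [returns, returnSet, Set.mem_ofPred_eq, Set.forall_mem_range]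

/-- **The dynamical Mordell-Lang conjecture for families with preperiodic members.** -/
theorem result [Finite κ] {d : ℕ} (F : Fin (N + 1) → MvPolynomial (Fin (N + 1)) ℂ[X])
    (hF : ∀ i, (F i).IsHomogeneous d) (x : Fin (N + 1) → ℂ[X])
    (G : κ → MvPolynomial (Fin (N + 1)) ℂ[X]) (e : κ → ℕ) (hG : ∀ k, (G k).IsHomogeneous (e k))
    (A : Finset ℚ) (hA : ∀ α ∈ A, Preperiodic (member F α) (start x α) ∧
      ((returns F x G α).Finite ∨ EventuallyEtale (member F α) (start x α))) :
    (A.Nonempty → ∀ K : Subfield ℂ, CoeffIn K F → CoeffIn K G → (∀ i k, (x i).coeff k ∈ K) →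
      ∀ t : ℂ, Transcendental K t →
        DMLAt F x G t ∧ ∀ α ∈ A, returns F x G t ⊆ returns F x G α) ∧
    ∀ L δ : ℕ, 1 ≤ L → L + 2 * δ ≤ A.card →
      {t : ℂ | DegreeAtMost δ t ∧ ¬ (DMLAt F x G t ∧ ∃ B ⊆ A, B.card = L ∧
        ∀ α ∈ B, returns F x G t ⊆ returns F x G α)}.Finite := by
  classical
  constructor
  · rintro ⟨α₀, hα₀⟩ K hFK hGK hxK t ht
    have key : ∀ α ∈ A, DMLAt F x G t ∧ returns F x G t ⊆ returns F x G α := by
      intro α hα
      obtain ⟨s, hsK, hs⟩ := near F hF x G e hG α (hA α hα).1 (hA α hα).2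
      obtain ⟨D, hD⟩ := emb_transc K s (hsK K hFK hGK hxK) t ht α
      obtain ⟨p, hpD, hp⟩ := Nat.exists_infinite_primes (D + α.den + 1)
      haveI : Fact p.Prime := ⟨hp⟩
      obtain ⟨τ, hτ, hτt⟩ := hD p (by omega)
      refine hs p τ (fun hdvd => ?_) hτ t hτt
      have := Nat.le_of_dvd α.den_pos hdvd
      omega
    exact ⟨(key α₀ hα₀).1, fun α hα => (key α hα).2⟩
  · intro L δ hL hδ
    let a : Fin A.card → ℚ := fun l => A.orderEmbOfFin rfl l
    have ha : Function.Injective a := (A.orderEmbOfFin rfl).injective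
    have haA : ∀ l, a l ∈ A := fun l => A.orderEmbOfFin_mem rfl l
    choose s hsK hs using fun l => near F hF x G e hG (a l) (hA _ (haA l)).1 (hA _ (haA l)).2
    choose D hD using fun l => emb_alg (s l)
    let D' : ℕ := ∑ l, (D l + (a l).den)
    refine (finite_badD D' δ (M := A.card) (L := L) hδ a ha).subset ?_
    rintro t ⟨htδ, hbad⟩
    refine ⟨htδ, ?_⟩
    rintro ⟨f, hf, P, hP, hPt, hp⟩
    apply hbad
    have key : ∀ l : Fin L, DMLAt F x G t ∧ returns F x G t ⊆ returns F x G (a (f l)) := by
      intro l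
      obtain ⟨p, hp, hpD, hdvd⟩ := hp l
      haveI : Fact p.Prime := ⟨hp⟩
      have hle : D (f l) + (a (f l)).den ≤ D' :=
        Finset.single_le_sum (f := fun l => D l + (a l).den) (fun _ _ => Nat.zero_le _)
          (Finset.mem_univ (f l))
      have hden : ¬ p ∣ (a (f l)).den := by
        intro h
        have := Nat.le_of_dvd (a (f l)).den_pos h
        omega
      obtain ⟨τ, hτ, hτt⟩ := hD (f l) p (by omega) t P hP hPt (a (f l)) hden hdvd
      exact hs (f l) p τ hden hτ t hτt
    refine ⟨(key ⟨0, hL⟩).1, Finset.univ.image fun l => a (f l), ?_, ?_, ?_⟩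
    · intro α hα
      obtain ⟨l, -, rfl⟩ := Finset.mem_image.1 hα
      exact haA _
    · have hinj : Function.Injective fun l => a (f l) := ha.comp hf
      rw [Finset.card_image_of_injective _ hinj, Finset.card_univ, Fintype.card_fin]
    · intro α hα
      obtain ⟨l, -, rfl⟩ := Finset.mem_image.1 hα
      exact (key l).2

end Pool.Agent.Results.MP_295d38_ag.FamiliesWithPreperiodicMembers
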