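import Pool.Agent.Y556.DM.Fin

/-!
# Dynamical Mordell-Lang for split maps whose components of equal degree are special

Definitions (in `Pool.Agent.Y556.DM` unless otherwise stated; `Qbar` is the algebraic closure
of `ℚ`, `h1 a` in `Pool.Agent.Y215.SK` is the absolute logarithmic Weil height of `a`):
* `deg2 P Q`: the degree of the rational function `f = P / Q`, the larger of the degrees;
* `ev P Q`: the map `f` in homogeneous coordinates, by the homogenised polynomials `hev P d`,
  `hev Q d` of degree `d = deg2 P Q` (`Pool.Agent.H58W.hev P d x y` is the sum of the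
  `P.coeff i * x ^ i * y ^ (d - i)`, `i ≤ d`); `orb P Q z n` is the `n`-th iterate of `z`;
* `orbs P Q z n`: the `n`-th point of the orbit of the point `z` of `(P^1)^N` under
  `f_1 × ... × f_N`;
* `Wandering P Q z`: the point `z` of `P^1` is not preperiodic;
* `Special P Q`: `f(φ(t)) = φ(t ^ E)` for all `t ≠ 0` with a nonconstant rational function
  `φ = A / B` and `E = d` or `E = -d`; power maps and Chebyshev maps are special;
* `MultiHom g`: `g` is multihomogeneous in the coordinates of `(P^1)^N`;
* `Ret σ y x V`: the set of the `n` with `(y n, x n)` in the closed set `V` of `A^m × (P^1)^N`;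
* `IsAP S`: `S` is a finite union of arithmetic progressions `{a + b k : k ≥ 0}`, `b = 0` allowed.
-/

set_option autoImplicit false

open Filter Topology Pool.Agent.Helper259.AbsHt Pool.Agent.Y215.SK Pool.Agent.Y556.DM

namespace Pool.Agent.Results.MP_295d38_ag.SplitMapsDistinctDegrees

/-- **Dynamical Mordell-Lang for `Φ × f_1 × ... × f_N`.** Let `f_1, ..., f_N` be rational functions
of degrees `≥ 2` over `Qbar` and `z` a point of `(P^1)^N` over `Qbar` such that, whenever `f_i` and
`f_j` (`i ≠ j`) have equal degree and both coordinates are not preperiodic, `f_i` is special (a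
quotient of a power map). No condition is imposed on components of different degrees.

1. Let `y` be any sequence in `A^m` over `Qbar` whose return sets in hypersurfaces of `A^m` are
finite unions of arithmetic progressions, with heights `o((deg f_i) ^ n)` for all `i`. Then the
return sets of `(y n, (f_1 × ... × f_N)^n (z))` in all closed sets `V` of `A^m × (P^1)^N` over `ℂ`
are finite unions of arithmetic progressions.

2. In particular the dynamical Mordell-Lang property passes from a polynomial self-map `Φ` of `A^m`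
and the point `α` to `Φ × f_1 × ... × f_N` and the point `(α, z)` if `Φ` has smaller degree than
all `f_i`.

3. It holds for `Φ × f_1 × ... × f_N` at `(α, z)` if `Φ` is a linear map of `A^m`.

4. Power maps and Chebyshev polynomials are special. -/
theorem result :
    (∀ (N : ℕ) (P Q : Fin N → Polynomial Qbar) (z : Fin N → Fin 2 → Qbar),
      (∀ i, IsCoprime (P i) (Q i)) → (∀ i, 2 ≤ deg2 (P i) (Q i)) → (∀ i, z i ≠ 0) →
      (∀ i j, i ≠ j → deg2 (P i) (Q i) = deg2 (P j) (Q j) → Wandering (P i) (Q i) (z i) →
        Wandering (P j) (Q j) (z j) → Special (P i) (Q i)) →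
      ∀ (m : ℕ) (σ : Qbar →+* ℂ) (V : Set (MvPolynomial (Fin m ⊕ (Fin N × Fin 2)) ℂ)),
      (∀ g ∈ V, MultiHom g) →
      (∀ y : ℕ → Fin m → Qbar,
        (∀ F : MvPolynomial (Fin m) Qbar, IsAP {n | MvPolynomial.eval (y n) F = 0}) →
        (∀ i, Tendsto (fun n => (∑ k, h1 (y n k)) / (deg2 (P i) (Q i) : ℝ) ^ n) atTop (𝓝 0)) →
        IsAP (Ret σ y (orbs P Q z) V)) ∧
      (∀ (Φ : Fin m → MvPolynomial (Fin m) Qbar) (α : Fin m → Qbar),
        (∀ i j, (Φ j).totalDegree < deg2 (P i) (Q i)) →
        (∀ F : MvPolynomial (Fin m) Qbar,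
          IsAP {n | MvPolynomial.eval ((fun w j => MvPolynomial.eval w (Φ j))^[n] α) F = 0}) →
        IsAP (Ret σ (fun n => (fun w j => MvPolynomial.eval w (Φ j))^[n] α) (orbs P Q z) V)) ∧
      (∀ (Φ : Matrix (Fin m) (Fin m) Qbar) (α : Fin m → Qbar),
        IsAP (Ret σ (fun n => (fun w => Φ.mulVec w)^[n] α) (orbs P Q z) V))) ∧
    (∀ d : ℕ, Special (Polynomial.X ^ d) 1 ∧ Special (Polynomial.dickson 1 (1 : Qbar) d) 1) := by
  refine ⟨fun N P Q z hco hd hz heq m σ V hV => ?_, fun d => ⟨special_pow d, special_cheb d⟩⟩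
  have h1' : ∀ y : ℕ → Fin m → Qbar, Dml y →
      (∀ i, Tendsto (fun n => (∑ k, h1 (y n k)) / (deg2 (P i) (Q i) : ℝ) ^ n) atTop (𝓝 0)) →
      IsAP (Ret σ y (orbs P Q z) V) := fun y hy hgr =>
    concl P Q z hco hz y (split P Q z hy hco hz hd heq hgr) σ V hV
  refine ⟨fun y hy hgr => h1' y (fun F => (hy F).ep) hgr, fun Φ α hdeg hy => ?_, fun Φ α => ?_⟩
  · refine h1' _ (fun F => (hy F).ep) fun i => ?_
    have h2 := hd i
    refine poly_growth Φ (max 1 (Finset.univ.sup fun j => (Φ j).totalDegree))
      (fun j => (Finset.le_sup (f := fun j => (Φ j).totalDegree) (Finset.mem_univ j)).trans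
        (le_max_right _ _)) (le_max_left _ _) _ (fun n j => ?_) _ ?_
    · rw [Function.iterate_succ_apply']
    · refine max_lt (by omega) ?_
      rw [Finset.sup_lt_iff (by rw [Nat.bot_eq_zero]; omega)]
      exact fun j _ => hdeg i j
  · have e : (fun n => (fun w => Φ.mulVec w)^[n] α) =
        fun n => ((Matrix.toLin' Φ : Module.End Qbar (Fin m → Qbar)) ^ n) α := by
      funext n
      rw [Module.End.pow_apply]
      rfl
    rw [e]
    exact h1' _ (linear_dml _ α) fun i => linear_growth _ α _ (hd i)

end Pool.Agent.Results.MP_295d38_ag.SplitMapsDistinctDegrees
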