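import Pool.Agent.Y556.TW.Thm

/-!
# Dynamical Mordell-Lang for skew products with twisted power maps

Definitions (in `Pool.Agent.Y556.TW` unless otherwise stated; `Qbar` is the algebraic closure
of `ℚ`, `h1 a` in `Pool.Agent.Y215.SK` is the absolute logarithmic Weil height of `a`):
* `skew d G A`: the map `(y, x) ↦ (G(y), A_1(y) x_1 ^ d, ..., A_k(y) x_k ^ d)`;
* `bas d G A w n`, `fib d G A w n`: the two components `y_n`, `x_n` of the `n`-th iterate of the
  point `w = (y_0, x_0)` under `skew d G A`;
* `mon x e`: the Laurent monomial `∏ x_i ^ (e_i)` for an integral vector `e`;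
* `Zr d x e`: the canonical height of the monomial is zero, that is
  `h1 (mon (x n) e) / d ^ n → 0`;
* `mons x E n`: the values `mon (x n) (E j)` and their inverses;
* `RetC σ w V`: the set of the `n` with `w n` in the closed set `V` of the affine space over `ℂ`;
* `Pool.Agent.Y556.DM.IsAP S`: `S` is a finite union of arithmetic progressions
  `{a + b k : k ≥ 0}`, `b = 0` allowed.
-/

set_option autoImplicit false

open Filter Topology MvPolynomial Pool.Agent.Helper259.AbsHt Pool.Agent.Y215.SK
open Pool.Agent.Y556.TW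
open Pool.Agent.Y556.DM (IsAP IsAP.ep EP.isAP Dml)

namespace Pool.Agent.Results.MP_295d38_ag.TwistedPowerSkewProducts

/-- **Dynamical Mordell-Lang for skew products with twisted power maps.**

1. Let `g`, `B` be polynomials in one variable, `deg g < d`, `d ≥ 2`. The dynamical Mordell-Lang
property holds for the self-map
`Ψ(y, x_1, ..., x_k) = (g(y), c_1 B(y) ^ μ_1 x_1 ^ d, ..., c_k B(y) ^ μ_k x_k ^ d)`
of `A^(k+1)` at all algebraic points and for all closed sets over `ℂ`.

2. More generally, let `Φ` be a polynomial self-map of `A^m` with coordinates of total degree `< d`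
and `B` a polynomial on `A^m`. If it holds for `Φ` at the point `y_0`, and if for every finitely
generated subgroup `Γ` of the nonzero algebraic numbers infinitely many `B(Φ^n(y_0))` are not
in `Γ`, then it holds for `Ψ(y, x) = (Φ(y), (c_i B(y) ^ μ_i x_i ^ d)_i)` at `(y_0, x_0)` for
all `x_0`.

3. Let `Ψ(y, x) = (Φ(y), (A_i(y) x_i ^ d)_i)` with arbitrary polynomials `A_i` and let
`(y_0, x_0)` be a point whose orbit has nonzero `x`-coordinates. If all monomials `x ^ e`, `e ≠ 0`,
have positive canonical height, then for all closed sets `V` over `ℂ` and all large `n` the `n`-th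
point `(y_n, x_n)` is in `V` if and only if `V` contains the whole fibre over `y_n`; and a
polynomial over `Qbar` vanishes at `(y_n, x_n)` if and only if its coefficients with respect to
`x` vanish at `y_n`.

4. In general there is a finite family of monomials of canonical height zero such that the
dynamical Mordell-Lang property of the orbit is equivalent to that of the sequence of the `y_n` and
the values of these monomials.

5. For every exponent vector `e` the points `x_0` in a fibre for which the monomial `x ^ e` has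
canonical height zero have, up to roots of unity, the same value `x_0 ^ e`. -/
theorem result :
    (∀ (k d : ℕ), 2 ≤ d → ∀ (g B : Polynomial Qbar), g.natDegree < d →
      ∀ (c : Fin k → Qbar) (μ : Fin k → ℕ) (w : Fin 1 ⊕ Fin k → Qbar) (σ : Qbar →+* ℂ)
        (V : Set (MvPolynomial (Fin 1 ⊕ Fin k) ℂ)),
        IsAP (RetC σ (fun n => (skew d (fun y _ => g.eval (y 0))
          (fun y i => c i * B.eval (y 0) ^ μ i))^[n] w) V)) ∧
    (∀ (m k d : ℕ), 2 ≤ d → ∀ (Φ : Fin m → MvPolynomial (Fin m) Qbar),
      (∀ j, (Φ j).totalDegree < d) → ∀ (B : MvPolynomial (Fin m) Qbar) (c : Fin k → Qbar)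
        (μ : Fin k → ℕ) (w : Fin m ⊕ Fin k → Qbar),
        (∀ F : MvPolynomial (Fin m) Qbar,
          IsAP {n | eval ((fun y j => eval y (Φ j))^[n] (fun j => w (Sum.inl j))) F = 0}) →
        (∀ Γ : Subgroup Qbarˣ, Γ.FG → ∃ᶠ n in atTop, ∀ u ∈ Γ,
          (u : Qbar) ≠ eval ((fun y j => eval y (Φ j))^[n] (fun j => w (Sum.inl j))) B) →
        ∀ (σ : Qbar →+* ℂ) (V : Set (MvPolynomial (Fin m ⊕ Fin k) ℂ)),
        IsAP (RetC σ (fun n => (skew d (fun y j => eval y (Φ j))
          (fun y i => c i * eval y B ^ μ i))^[n] w) V)) ∧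
    (∀ (m k d : ℕ), 2 ≤ d → ∀ (Φ : Fin m → MvPolynomial (Fin m) Qbar),
      (∀ j, (Φ j).totalDegree < d) → ∀ (A : Fin k → MvPolynomial (Fin m) Qbar)
        (y : ℕ → Fin m → Qbar) (x : ℕ → Fin k → Qbar) (w : Fin m ⊕ Fin k → Qbar),
        y = bas d (fun y j => eval y (Φ j)) (fun y i => eval y (A i)) w →
        x = fib d (fun y j => eval y (Φ j)) (fun y i => eval y (A i)) w →
        (∀ n i, x n i ≠ 0) →
        ((∀ e : Fin k → ℤ, e ≠ 0 → ¬ Zr d x e) →
          (∀ (σ : Qbar →+* ℂ) (V : Set (MvPolynomial (Fin m ⊕ Fin k) ℂ)),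
            ∀ᶠ n in atTop, (n ∈ RetC σ (fun n => Sum.elim (y n) (x n)) V ↔
              ∀ x' : Fin k → Qbar, n ∈ RetC σ (fun n => Sum.elim (y n) x') V)) ∧
          (∀ F : MvPolynomial (Fin m ⊕ Fin k) Qbar, ∀ᶠ n in atTop,
            (eval (Sum.elim (y n) (x n)) F = 0 ↔
              ∀ x' : Fin k → Qbar, eval (Sum.elim (y n) x') F = 0))) ∧
        (∃ (r : ℕ) (E : Fin r → Fin k → ℤ), (∀ j, Zr d x (E j)) ∧
          ((∀ F, IsAP {n | eval (Sum.elim (y n) (x n)) F = 0}) ↔
            ∀ F, IsAP {n | eval (Sum.elim (y n) (mons x E n)) F = 0})) ∧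
        (∀ (w' : Fin m ⊕ Fin k → Qbar) (x' : ℕ → Fin k → Qbar),
          (∀ j, w' (Sum.inl j) = w (Sum.inl j)) →
          x' = fib d (fun y j => eval y (Φ j)) (fun y i => eval y (A i)) w' →
          (∀ n i, x' n i ≠ 0) → ∀ e : Fin k → ℤ, Zr d x e → Zr d x' e →
          ∃ L : ℕ, 0 < L ∧ mon (fun i => w (Sum.inr i)) e ^ L =
            mon (fun i => w' (Sum.inr i)) e ^ L)) := by
  refine ⟨?_, ?_, ?_⟩
  · intro k d hd g B hg c μ w σ V
    rw [orbit_eq]
    refine conclC ?_ σ V
    have h2 := main_one g B c μ d hd hg (fun n => bas d (fun y _ => g.eval (y 0))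
      (fun y i => c i * B.eval (y 0) ^ μ i) w n 0) (fun n => by rw [bas_succ])
      (fib d (fun y _ => g.eval (y 0)) (fun y i => c i * B.eval (y 0) ^ μ i) w)
      (fun n i => fib_succ _ _ _ _ n i)
    have e : (fun n => Sum.elim (fun _ : Fin 1 => bas d (fun y _ => g.eval (y 0))
        (fun y i => c i * B.eval (y 0) ^ μ i) w n 0) (fib d (fun y _ => g.eval (y 0))
        (fun y i => c i * B.eval (y 0) ^ μ i) w n)) =
        fun n => Sum.elim (bas d (fun y _ => g.eval (y 0))
        (fun y i => c i * B.eval (y 0) ^ μ i) w n) (fib d (fun y _ => g.eval (y 0))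
        (fun y i => c i * B.eval (y 0) ^ μ i) w n) := by
      funext n
      congr 1
      funext j
      rw [Subsingleton.elim j 0]
    rw [← e]
    exact h2
  · intro m k d hd Φ hΦ B c μ w hF hfg σ V
    rw [orbit_eq]
    refine conclC ?_ σ V
    simp only [← bas_eq d (fun y j => eval y (Φ j)) (fun y i => c i * eval y B ^ μ i) w] at hF hfg
    exact main_fg Φ B c μ d hd hΦ (fun n j => by rw [bas_succ]) (fun n i => fib_succ _ _ _ _ n i)
      (fun F => (hF F).ep) hfg
  · intro m k d hd Φ hΦ A y x w hy hx hx0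
    have hyr : ∀ n j, y (n + 1) j = eval (y n) (Φ j) := fun n j => by rw [hy, bas_succ]
    have hxr : ∀ n i, x (n + 1) i = eval (y n) (A i) * x n i ^ d := fun n i => by
      rw [hx, hy, fib_succ]
    have hS := TwS.of_poly Φ A d hd hΦ hyr hxr hx0
    refine ⟨fun hpos => ?_, ?_, ?_⟩
    · have hZ : ∀ e, Zr d x e → e = 0 := fun e he => by
        by_contra hne
        exact hpos e hne he
      refine ⟨fun σ V => genC hS hZ σ V, fun F => (hS.generic hZ F).mono fun n hn => ?_⟩
      constructor
      · intro h0 x'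
        have h6 := hn.1 h0
        have h7 : MvPolynomial.map (eval (y n)) (Pool.Agent.Y556.DM.Psi F) = 0 := by
          ext m
          rw [coeff_map, h6, coeff_zero]
        rw [← Pool.Agent.Y556.DM.eval_Psi, h7, map_zero]
      · intro h0
        exact h0 (x n)
    · obtain ⟨r, E, hE0, hE⟩ := exists_gens d hx0
      refine ⟨r, E, hE0, fun h F => ?_, fun h F => ?_⟩
      · exact (dml_mons hx0 E (fun F => (h F).ep) F).isAP
      · exact (hS.reduce E hE0 hE (fun F => (h F).ep) F).isAP
    · intro w' x' hw hx' hx0' e he he'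
      have hyb : bas d (fun y j => eval y (Φ j)) (fun y i => eval y (A i)) w' = y := by
        funext n
        rw [hy, bas_eq, bas_eq]
        congr 1
        funext j
        exact hw j
      have hxr' : ∀ n i, x' (n + 1) i = eval (y n) (A i) * x' n i ^ d := fun n i => by
        rw [hx', ← hyb, fib_succ]
      obtain ⟨L, hL, h2⟩ := zero_class hd (a := fun n i => eval (y n) (A i)) hxr hxr' hx0 hx0' e he
        he'
      refine ⟨L, hL, ?_⟩
      rw [hx, hx'] at h2
      exact h2

end Pool.Agent.Results.MP_295d38_ag.TwistedPowerSkewProducts
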